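import Pool.Agent.Helper209.AC.Compl

set_option autoImplicit false

open MeasureTheory Set

namespace Pool.Agent.Results.MP_9fcdee_mp.Completeness

/-- `u` is the `C¹` representative of an element of `H²_loc(ℝ)`; `v` is its derivative and
`w ∈ L²_loc(ℝ)` its second (weak) derivative. -/
def H2locLine (u v w : ℝ → ℂ) : Prop :=
  (∀ a b : ℝ, MemLp w 2 (volume.restrict (Icc a b))) ∧
  (∀ x : ℝ, v x = v 0 + ∫ t in (0:ℝ)..x, w t) ∧ (∀ x : ℝ, u x = u 0 + ∫ t in (0:ℝ)..x, v t)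

/-- Line realisation, maximal domain: `U` is in the domain of `A_α` and `A_α U = W`. -/
def GraphLine (α : ℝ) (U W : Lp ℂ 2 (volume : Measure ℝ)) : Prop :=
  ∃ u v w : ℝ → ℂ, H2locLine u v w ∧ U =ᵐ[volume] u ∧
    W =ᵐ[volume] fun x => -w x + Complex.I * ((|x| ^ α : ℝ) : ℂ) * u x

/-- The eigenfunctions of the line realisation. -/
def EigLine (α : ℝ) : Set (Lp ℂ 2 (volume : Measure ℝ)) :=
  {U | U ≠ 0 ∧ ∃ lam : ℂ, GraphLine α U (lam • U)}

/-- `u` is the representative of an element of `H²_loc` of the closed half-line with `u(0) = 0`;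
`v` is its derivative and `w` its second (weak) derivative (only values on `[0,∞)` matter). -/
def H2locHalf (u v w : ℝ → ℂ) : Prop :=
  (∀ b : ℝ, MemLp w 2 (volume.restrict (Icc 0 b))) ∧ u 0 = 0 ∧
  (∀ x : ℝ, 0 ≤ x → v x = v 0 + ∫ t in (0:ℝ)..x, w t) ∧
  (∀ x : ℝ, 0 ≤ x → u x = u 0 + ∫ t in (0:ℝ)..x, v t)

/-- Half-line realisation with Dirichlet condition, maximal domain: `U` is in the domain of `A_α`
and `A_α U = W`. -/
def GraphHalf (α : ℝ) (U W : Lp ℂ 2 (volume.restrict (Ioi (0:ℝ)))) : Prop :=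
  ∃ u v w : ℝ → ℂ, H2locHalf u v w ∧ U =ᵐ[volume.restrict (Ioi (0:ℝ))] u ∧
    W =ᵐ[volume.restrict (Ioi (0:ℝ))] fun x => -w x + Complex.I * ((|x| ^ α : ℝ) : ℂ) * u x

/-- The eigenfunctions of the half-line Dirichlet realisation. -/
def EigHalf (α : ℝ) : Set (Lp ℂ 2 (volume.restrict (Ioi (0:ℝ)))) :=
  {U | U ≠ 0 ∧ ∃ lam : ℂ, GraphHalf α U (lam • U)}

/-- For every `0 < α < 2/3` the eigenfunctions of `-d²/dx² + i|x|^α` are complete, both in `L²(ℝ)`
and in `L²(ℝ₊)` with the Dirichlet condition. -/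
theorem result : ∀ α : ℝ, 0 < α → α < 2 / 3 →
    (Submodule.span ℂ (EigLine α)).topologicalClosure = ⊤ ∧
    (Submodule.span ℂ (EigHalf α)).topologicalClosure = ⊤ := by
  intro α hα hα2
  have hfac : ∀ {μ : ℂ} {ψ ψ' : ℝ → ℂ}, Helper209.AC.IsSol (Helper209.AC.pot α Complex.I μ) ψ ψ' →
      (∀ a b : ℝ, MemLp (fun x => Helper209.AC.pot α Complex.I μ x * ψ x) 2 (volume.restrict (Icc a b))) ∧
      (∀ x : ℝ, ψ' x = ψ' 0 + ∫ t in (0:ℝ)..x, Helper209.AC.pot α Complex.I μ t * ψ t) ∧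
      (∀ x : ℝ, ψ x = ψ 0 + ∫ t in (0:ℝ)..x, ψ' t) := by
    intro μ ψ ψ' h
    have hV := Helper209.AC.pot_cont hα Complex.I μ
    have hc : Continuous (fun x => Helper209.AC.pot α Complex.I μ x * ψ x) := hV.mul h.cont
    refine ⟨?_, ?_, ?_⟩
    · intro a b
      obtain ⟨K, hK⟩ := (isCompact_Icc (a := a) (b := b)).exists_bound_of_continuousOn hc.continuousOn
      apply MemLp.of_bound hc.aestronglyMeasurable K
      rw [ae_restrict_iff' measurableSet_Icc]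
      exact Filter.Eventually.of_forall fun x hx => hK x hx
    · intro x
      rw [intervalIntegral.integral_eq_sub_of_hasDerivAt (fun t _ => (h t).2) (hc.intervalIntegrable _ _)]
      ring
    · intro x
      rw [intervalIntegral.integral_eq_sub_of_hasDerivAt (fun t _ => (h t).1) (h.cont'.intervalIntegrable _ _)]
      ring
  constructor
  · apply Helper209.AC.complete_of (EigLine α) {ψ | MemLp ψ 2 volume ∧ ∃ (μ : ℂ) (ψ' : ℝ → ℂ),
      Helper209.AC.IsSol (Helper209.AC.pot α Complex.I μ) ψ ψ'}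
    · rintro ψ ⟨-, μ, ψ', h⟩ hψ hne
      obtain ⟨f1, f2, f3⟩ := hfac h
      refine ⟨hne, μ, ψ, ψ', _, ⟨f1, f2, f3⟩, hψ.coeFn_toLp, ?_⟩
      filter_upwards [Lp.coeFn_smul μ (hψ.toLp ψ), hψ.coeFn_toLp] with x h1 h2
      rw [h1, Pi.smul_apply, h2, smul_eq_mul]
      unfold Helper209.AC.pot
      ring
    · rintro ψ ⟨h, -⟩
      exact h
    · intro g hg horth
      exact Helper209.AC.line_zero α hα hα2.le g hg (fun μ ψ ψ' h1 h2 => horth ψ ⟨h2, μ, ψ', h1⟩)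
  · apply Helper209.AC.complete_of (EigHalf α) {ψ | MemLp ψ 2 (volume.restrict (Ioi (0:ℝ))) ∧ ψ 0 = 0 ∧
      ∃ (μ : ℂ) (ψ' : ℝ → ℂ), Helper209.AC.IsSol (Helper209.AC.pot α Complex.I μ) ψ ψ'}
    · rintro ψ ⟨-, h0, μ, ψ', h⟩ hψ hne
      obtain ⟨f1, f2, f3⟩ := hfac h
      refine ⟨hne, μ, ψ, ψ', _, ⟨fun b => f1 0 b, h0, fun x _ => f2 x, fun x _ => f3 x⟩, hψ.coeFn_toLp, ?_⟩
      filter_upwards [Lp.coeFn_smul μ (hψ.toLp ψ), hψ.coeFn_toLp] with x h1 h2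
      rw [h1, Pi.smul_apply, h2, smul_eq_mul]
      unfold Helper209.AC.pot
      ring
    · rintro ψ ⟨h, -⟩
      exact h
    · intro g hg horth
      obtain ⟨P, hP0, hP1⟩ := Helper209.AC.exists_pack α hα 0 1 (Or.inl ⟨rfl, rfl⟩)
      apply Helper209.AC.half_line α hα hα2.le P g hg
      intro μ ψ ψ' h1 h2 h3
      have h4 : ψ 0 = 0 := by simpa [hP0, hP1] using h3
      exact horth ψ ⟨Helper209.AC.memLp_Ioi h1.cont h2, h4, μ, ψ', h1⟩

end Pool.Agent.Results.MP_9fcdee_mp.Completeness
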